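import Pool.Agent.N162.GP.Stm
import Pool.Agent.N543.HN.Comb

/-!
# GP/GM (helper11): the combinatorial part, there is a curve of low degree with many points
-/

set_option autoImplicit false
set_option linter.unusedSectionVars false

open MvPolynomial

namespace Pool.Agent.N11.GP

open Pool.Agent.N162.HN
open Pool.Agent.N543.HN
open Pool.Agent.N162.CV (PRel MonicY StA3 td_prod td_dvd relPrime_of_not_dvd one_le_td mulH)
open Pool.Agent.N162.CW (StA2)

section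

variable {n : ℕ} {Ω : Type} [Field Ω]

variable {r : ℕ} {κ : (Fin (n + 2) → Ω) → Ω} {m N : ℕ} {c : (Fin (n + 2) → Ω) →₀ ℤ}
  {g : Fin r → ℕ}
  {on : Fin r → (Fin (n + 2) → Ω) → Prop}
  {A : Fin n → MvPolynomial (Fin 2) Ω} {t : Ω} {J : Finset (Fin r)}
  {G : Fin r → MvPolynomial (Fin 2) Ω} {S : Finset (Fin (n + 2) → Ω)}

/-- **Step I.** The points lie on curves of total degree at most `N`. -/
theorem stepI' (hA2 : StA2) (hSP : StSP) [IsAlgClosed Ω] [CharZero Ω]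
    (hm : 7 * N + 4 ≤ m) (hNd : (n + 1) * N < m + n + 2)
    (hc0 : ∀ p, c p ≠ 0 → p 0 = 1 ∧ κ p ≠ 0) (hcr : Rel m κ c)
    (hcard : c.support.card < (N + 1) * (m + 2 - N))
    (hA : ∀ l, MonicY (A l)) (hA1 : ∀ l, 1 ≤ (A l).totalDegree)
    (hAN : ∀ l, (A l).totalDegree ≤ N)
    (hAc : ∀ p, c p ≠ 0 → ∀ l, eval ![p 1, p l.succ.succ] (A l) = 0)
    (hcS : ∀ p, c p ≠ 0 → p ∈ S)
    (hp : Prj S g on A t G)
    (hinj : Set.InjOn (pr (n := n) t) (S : Set (Fin (n + 2) → Ω))) :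
    ∃ I : Finset (Fin r), ∑ i ∈ I, g i ≤ N ∧ ∀ p, c p ≠ 0 → ∃ i ∈ I, on i p := by
  classical
  obtain ⟨T, hT0, hTd, hT⟩ := hA2 Ω (Fin (n + 2) → Ω) c.support (pr t)
    (fun p => (c p : Ω) * κ p) m N
    hm hcard
    (fun p h q h' => hinj (hcS p (Finsupp.mem_support_iff.1 h))
      (hcS q (Finsupp.mem_support_iff.1 h')))
    (fun p h => mul_ne_zero (Int.cast_ne_zero.2 (Finsupp.mem_support_iff.1 h))
      (hc0 p (Finsupp.mem_support_iff.1 h)).2)
    (toPlane hcr (fun p h => (hc0 p h).1) t)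
  obtain ⟨I, hI⟩ : ∃ I : Finset (Fin r), I = Finset.univ.filter fun i => G i ∣ T := ⟨_, rfl⟩
  have hImem : ∀ i, i ∈ I ↔ G i ∣ T := by
    intro i
    rw [hI, Finset.mem_filter]
    simp
  obtain ⟨H, hH⟩ : ∃ H, H = ∏ i ∈ I, G i := ⟨_, rfl⟩
  have hHdvd : H ∣ T := by
    rw [hH]
    refine Finset.prod_dvd_of_isRelPrime ?_ fun i hi => (hImem i).1 hi
    intro i _ j _ hij
    refine relPrime_of_not_dvd (hp.irr i) fun h => ?_
    exact hp.assoc i j hij ((hp.irr i).associated_of_dvd (hp.irr j) h)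
  have hHd : H.totalDegree = ∑ i ∈ I, g i := by
    rw [hH, td_prod _ _ fun i _ => (hp.irr i).ne_zero]
    exact Finset.sum_congr rfl fun i _ => hp.deg i
  obtain ⟨Q0, hQ0⟩ := hHdvd
  have hH0 : H ≠ 0 := by
    rintro rfl
    exact hT0 (by rw [hQ0, zero_mul])
  have hQ00 : Q0 ≠ 0 := by
    rintro rfl
    exact hT0 (by rw [hQ0, mul_zero])
  have hTdeg : H.totalDegree + Q0.totalDegree ≤ N := by
    rw [← totalDegree_mul_of_isDomain hH0 hQ00, ← hQ0]
    exact hTd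
  refine ⟨I, by omega, ?_⟩
  by_contra hcon
  push Not at hcon
  obtain ⟨p0, hp0, hp1⟩ := hcon
  have hHev : ∀ p ∈ S, eval (pr t p) H = 0 ↔ ∃ i ∈ I, on i p := by
    intro p hpG
    rw [hH, map_prod, Finset.prod_eq_zero_iff]
    constructor
    · rintro ⟨i, hi, h⟩
      exact ⟨i, hi, (hp.iff i p hpG).1 h⟩
    · rintro ⟨i, hi, h⟩
      exact ⟨i, hi, (hp.iff i p hpG).2 h⟩
  obtain ⟨Y, hY⟩ : ∃ Y, Y = c.support.filter fun p => eval (pr t p) H ≠ 0 := ⟨_, rfl⟩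
  have hYm : ∀ p, p ∈ Y ↔ c p ≠ 0 ∧ eval (pr t p) H ≠ 0 := by
    intro p
    rw [hY, Finset.mem_filter, Finsupp.mem_support_iff]
  have hp0Y : p0 ∈ Y := by
    rw [hYm]
    refine ⟨hp0, fun h => ?_⟩
    obtain ⟨i, hi, h1⟩ := (hHev p0 (hcS p0 hp0)).1 h
    exact hp1 i hi h1
  -- minimal equation of the other points
  obtain ⟨Q, hQ1, hQ2, hQ3, hQ4⟩ : ∃ Q : MvPolynomial (Fin 2) Ω, Q ≠ 0 ∧ Q ∣ Q0 ∧
      (∀ p ∈ Y, eval (pr t p) Q = 0) ∧ ∀ Q', Q' ≠ 0 → Q' ∣ Q0 →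
      (∀ p ∈ Y, eval (pr t p) Q' = 0) → Q.totalDegree ≤ Q'.totalDegree := by
    have hex : ∃ (n : ℕ) (Q : MvPolynomial (Fin 2) Ω), Q.totalDegree = n ∧ Q ≠ 0 ∧ Q ∣ Q0 ∧
        ∀ p ∈ Y, eval (pr t p) Q = 0 := by
      refine ⟨_, Q0, rfl, hQ00, dvd_rfl, fun p hpY => ?_⟩
      rw [hYm] at hpY
      have h1 := hT p (Finsupp.mem_support_iff.2 hpY.1)
      rw [hQ0, map_mul] at h1
      exact (mul_eq_zero.1 h1).resolve_left hpY.2
    obtain ⟨Q, h1, h2, h3, h4⟩ := Nat.find_spec hex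
    refine ⟨Q, h2, h3, h4, fun Q' h5 h6 h7 => ?_⟩
    rw [h1]
    exact Nat.find_min' hex ⟨Q', rfl, h5, h6, h7⟩
  have hQG : ∀ i, ¬ G i ∣ Q := by
    intro i hi
    obtain ⟨R, hR⟩ := hi
    have hR0 : R ≠ 0 := by
      rintro rfl
      exact hQ1 (by rw [hR, mul_zero])
    have hiI : i ∈ I := by
      rw [hImem]
      exact (Dvd.intro R hR.symm).trans (hQ2.trans (Dvd.intro_left H hQ0.symm))
    have h1 := hQ4 R hR0 ((Dvd.intro_left (G i) hR.symm).trans hQ2) (fun p hpY => by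
      have h2 := hQ3 p hpY
      rw [hR, map_mul] at h2
      refine (mul_eq_zero.1 h2).resolve_left fun h3 => ?_
      rw [hYm] at hpY
      exact hpY.2 ((hHev p (hcS p hpY.1)).2 ⟨i, hiI, (hp.iff i p (hcS p hpY.1)).1 h3⟩))
    have h2 : Q.totalDegree = (G i).totalDegree + R.totalDegree := by
      rw [hR, totalDegree_mul_of_isDomain (hp.irr i).ne_zero hR0]
    have h3 := one_le_td (hp.irr i)
    omega
  have hQd : H.totalDegree + Q.totalDegree ≤ N :=
    (Nat.add_le_add_left (td_dvd hQ2 hQ00) _).trans hTdeg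
  -- the points in space
  have hY1 : ∀ p ∈ Y, p 0 = 1 := fun p hpY => (hc0 p ((hYm p).1 hpY).1).1
  have h1 := hSP n Ω (Y.image Fin.tail) (fun q => (c (Fin.cons (1 : Ω) q : Fin (n + 2) → Ω) : Ω) *
      κ (Fin.cons (1 : Ω) q : Fin (n + 2) → Ω) *
    eval q (cyl n t H)) (m - H.totalDegree) A (cyl n t Q)
    (Finset.Nonempty.image ⟨p0, hp0Y⟩ _) (fun q hq => by
      obtain ⟨p, hpY, rfl⟩ := Finset.mem_image.1 hq
      rw [cons_tl (hY1 p hpY), eval_cyl]
      have h2 := (hYm p).1 hpY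
      exact mul_ne_zero (mul_ne_zero (Int.cast_ne_zero.2 h2.1) (hc0 p h2.1).2) h2.2)
    (fun P hP => by
      rw [Finset.sum_image fun p hp q hq h => tl_inj (hY1 p hp) (hY1 q hq) h]
      have h2 := toSpace hcr (fun p h => (hc0 p h).1) (cyl n t H)
        (k := m - H.totalDegree) (by
          have := td_cyl (n := n) t H
          omega) P hP
      rw [← h2]
      have h3 : Y ⊆ c.support := by
        rw [hY]
        exact Finset.filter_subset _ _
      rw [← Finset.sum_subset h3]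
      · refine Finset.sum_congr rfl fun p hpY => ?_
        rw [cons_tl (hY1 p hpY)]
      · intro p hpc hpY
        rw [hYm] at hpY
        push Not at hpY
        rw [eval_cyl, hpY (Finsupp.mem_support_iff.1 hpc), mul_zero, zero_mul])
    hA hA1 (fun q hq => by
      obtain ⟨p, hpY, rfl⟩ := Finset.mem_image.1 hq
      have h2 := (hYm p).1 hpY
      refine ⟨fun l => ?_, ?_⟩
      · exact hAc p h2.1 l
      · rw [eval_cyl]
        exact hQ3 p hpY)
    (by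
      refine ((hp.fin Q hQG).image Fin.tail).subset ?_
      rintro q ⟨h2, h4⟩
      have h5 : Fin.tail (Fin.cons (1 : Ω) q : Fin (n + 2) → Ω) = q := Fin.tail_cons _ _
      refine ⟨Fin.cons (1 : Ω) q, ⟨rfl, fun l => ?_, ?_⟩, h5⟩
      · exact h2 l
      · rw [← eval_cyl, h5]
        exact h4)
  have h2 := td_cyl (n := n) t Q
  have h3 : ∑ l, (A l).totalDegree ≤ n * N := by
    refine (Finset.sum_le_card_nsmul _ _ N fun l _ => hAN l).trans ?_
    simp
  have h4 := hNd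
  have h6 : (n + 1) * N = n * N + N := by ring
  omega

end

theorem gm_ (hA2 : Pool.Agent.N162.CW.StA2) (hSP : Pool.Agent.N162.HN.StSP)
    (hA3 : Pool.Agent.N162.CV.StA3) : Pool.Agent.N162.GP.StGM := by
  intro M m N r Ω _ _ _ S lam g on A t G hM hm hNd hSne hScard hS0 hrel hA hp hinj
  classical
  obtain ⟨c, hc⟩ : ∃ c : (Fin (M + 2) → Ω) →₀ ℤ, c = Finsupp.indicator S (fun _ _ => (1 : ℤ)) :=
    ⟨_, rfl⟩
  have hcm : ∀ p, p ∈ S → c p = 1 := by
    intro p h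
    rw [hc, Finsupp.indicator_of_mem h]
  have hcn : ∀ p, c p ≠ 0 → p ∈ S := by
    intro p h
    by_contra h1
    exact h (by rw [hc, Finsupp.indicator_of_notMem h1])
  have hsup : c.support = S := by
    ext p
    rw [Finsupp.mem_support_iff]
    refine ⟨hcn p, fun h => ?_⟩
    rw [hcm p h]
    exact one_ne_zero
  have hcr : Rel m lam c := by
    intro P hP
    rw [← hrel P hP, Lam, hsup]
    refine Finset.sum_congr rfl fun p h => ?_
    rw [hcm p h, Int.cast_one, one_mul]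
  have hc0 : ∀ p, c p ≠ 0 → p 0 = 1 ∧ lam p ≠ 0 := fun p h => hS0 p (hcn p h)
  obtain ⟨I, hI1, hI2⟩ := stepI' (κ := lam) (c := c) hA2 hSP hm hNd hc0 hcr (by rw [hsup]; exact hScard)
    (fun l => (hA l).1) (fun l => (hA l).2.1) (fun l => (hA l).2.2.1)
    (fun p h l => (hA l).2.2.2 p (hcn p h)) hcn hp hinj
  obtain ⟨J, hJI, hJ1, hJ2⟩ := exists_min I c hI2
  have he : ∑ i ∈ J, g i ≤ N :=
    (Finset.sum_le_sum_of_subset hJI).trans hI1
  obtain ⟨p0, hp0⟩ := hSne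
  have hp0' : c p0 ≠ 0 := by
    rw [hcm p0 hp0]
    exact one_ne_zero
  obtain ⟨j, hj, -⟩ := hJ1 p0 hp0'
  have hon := on_only hJ1 j
  have hne : (only J on c j).Nonempty := by
    obtain ⟨p, h1, h2⟩ := hJ2 j hj
    exact ⟨p, mem_only.2 ⟨h1, h2⟩⟩
  have hcar := prj_card_only (κ := lam) (d := m + M + 2) hA3 hM rfl hm hp hinj he hcr
    (fun p h => ⟨hcn p h, hc0 p h⟩) hj hon hne
  have hgj := le_of_mem he hj
  refine ⟨j, only J on c j, fun p h => hcn p (mem_only.1 h).1, hne, hon, hgj, ?_⟩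
  obtain ⟨s, hs⟩ : ∃ s, s = ∑ i ∈ J, g i := ⟨_, rfl⟩
  rw [← hs] at hcar he
  obtain ⟨k, hk⟩ : ∃ k, m = N + k := ⟨m - N, by omega⟩
  obtain ⟨u, hu⟩ : ∃ u, N = s + u := ⟨N - s, by omega⟩
  obtain ⟨M', hM'⟩ : ∃ M', M = M' + 1 := ⟨M - 1, by omega⟩
  have e1 : m + 3 - N = k + 3 := by omega
  have e2 : m + M + 2 = k + 3 + (M' + s) + u := by omega
  have e3 : M - 1 + s = M' + s := by omega
  rw [e1]
  rw [e2, e3] at hcar
  have e4 : g j * (k + 3 + (M' + s) + u) = g j * (k + 3) + g j * (M' + s) + g j * u := by ring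
  rw [e4] at hcar
  have := Nat.zero_le (g j * u)
  omega

end Pool.Agent.N11.GP
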